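import Pool.Agent.Helper88.AAO.Main
set_option autoImplicit false

namespace Pool.Agent.Results.MP_49b22d_co.AlmostAllOrders

/-- For every `M ≥ 1` and `ε > 0` and all large `N`, at most `ε N` integers `n < N` are of the form
`n = |D| - lam` for a nontrivial difference set `D` with parameter `lam` in a finite nilpotent group `G`
with `gcd (|G|, M n) ≠ 1`. -/
theorem result : ∀ (M : ℕ), 0 < M → ∀ ε : ℝ, 0 < ε → ∃ N₀ : ℕ, ∀ N : ℕ, N₀ ≤ N →
    (Set.ncard {n : ℕ | n < N ∧ ∃ (G : Type) (_ : Group G) (_ : Fintype G) (_ : DecidableEq G),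
      Group.IsNilpotent G ∧ ∃ (D : Finset G) (lam : ℕ), 1 < D.card ∧ D.card + 1 < Fintype.card G ∧
        (∀ g : G, g ≠ 1 → ((D ×ˢ D).filter (fun x => x.1 * x.2⁻¹ = g)).card = lam) ∧
        n = D.card - lam ∧ Nat.gcd (Fintype.card G) (M * n) ≠ 1} : ℝ) ≤ ε * N := by
  intro M hM ε hε
  exact Pool.Agent.Helper88.AAO.almost_all hM hε

end Pool.Agent.Results.MP_49b22d_co.AlmostAllOrders
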