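import Pool.Agent.Helper97.Lander.Main
set_option autoImplicit false

namespace Pool.Agent.Results.MP_49b22d_co.PrimePartBound

/-- Let `G` be a finite abelian group whose order is divisible by the prime `p` (by `4` if `p = 2`)
and which has a cyclic subgroup `P` of index prime to `p` (for `G` cyclic take `P = G`). If `D` is a
nontrivial difference set in `G` with parameter `lambda` and `p ^ nu`, `nu ≥ 1`, divides
`n = |D| - lambda`, then `p ^ nu < p * lambda`. -/
theorem result : ∀ (p : ℕ), p.Prime → ∀ (G : Type) [AddCommGroup G] [Fintype G]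
    [DecidableEq G] (P : AddSubgroup G), IsAddCyclic P → ¬ p ∣ P.index → p ∣ Fintype.card G →
      (p = 2 → 4 ∣ Fintype.card G) → ∀ (D : Finset G) (lam : ℕ),
      1 < D.card → D.card + 1 < Fintype.card G →
      (∀ g : G, g ≠ 0 → ((D ×ˢ D).filter (fun x => x.1 - x.2 = g)).card = lam) →
      ∀ ν : ℕ, 1 ≤ ν → p ^ ν ∣ D.card - lam → p ^ ν < p * lam := by
  intro p hp G _ _ _ P hP hidx hpG hp2 D lam h1 h2 hrep ν hν hn
  exact Pool.Agent.Helper97.Lander.bound hp P hP hidx hpG hp2 D lam h1 h2 hrep hν hn

end Pool.Agent.Results.MP_49b22d_co.PrimePartBound
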