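import Pool.Agent.Helper97.Lander.Main
set_option autoImplicit false

namespace Pool.Agent.Results.MP_49b22d_co.PrimePowerLambda

/-- Let `G` be a finite abelian group with a cyclic subgroup `P` of index prime to `p` (for `G`
cyclic take `P = G`), and let `lambda = p ^ mu` be a prime power; if `p = 2` suppose that `mu = 1`,
or `mu` is even, or `4` divides `|G|`. Every nontrivial difference set `D` in `G` with this `lambda`
satisfies `gcd(|G|, n) = 1`, where `n = |D| - lambda`. -/
theorem result : ∀ (p μ : ℕ), p.Prime → 1 ≤ μ → ∀ (G : Type) [AddCommGroup G] [Fintype G]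
    [DecidableEq G] (P : AddSubgroup G), IsAddCyclic P → ¬ p ∣ P.index →
      (p = 2 → μ = 1 ∨ Even μ ∨ 4 ∣ Fintype.card G) → ∀ D : Finset G,
      1 < D.card → D.card + 1 < Fintype.card G →
      (∀ g : G, g ≠ 0 → ((D ×ˢ D).filter (fun x => x.1 - x.2 = g)).card = p ^ μ) →
      Nat.gcd (Fintype.card G) (D.card - p ^ μ) = 1 := by
  intro p μ hp hμ G _ _ _ P hP hidx hp2 D h1 h2 hrep
  exact Pool.Agent.Helper97.Lander.prime_power hp hμ P hP hidx hp2 D h1 h2 hrep

end Pool.Agent.Results.MP_49b22d_co.PrimePowerLambda
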